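import Mathlib

/-!
# The published facts about discrepancies and about the program

`X` is a smooth projective variety with `K_X ~ 0`, `D` the set of the prime divisors on its models, `a_E` the
discrepancies, `x` a b-divisor, `x ≥ 0`, such that `L - t x` is nef for small `t ≥ 0`, and
`lam x_E < lam' x_E ≤ a_E + 1` for all `E` with `x_E > 0`. `Y_0 → X` is `ℚ`-factorial, its exceptional divisors
are the `E` with `a_E ≤ lam x_E`, `F_j` are the prime divisors of `Y_0` with `x_j > 0`, `K = ∑ a_j F_j`. The
generalized pair `(Y_0, ∑ (lam x_j - a_j) F_j + M)`, `M` a multiple of `L - s x`, has the discrepancies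
`a_E - lam x_E > 0` at the divisors which are exceptional over `Y_0`. We consider a sequence of steps
`Y_0 ⇢ Y_1 ⇢ ...` of the program for `L - t ∑ x_j F_j`. They are small, `L`-trivial, and crepant for the
generalized pair.
-/

namespace Pool.Agent.H33.FT

variable {D : Type}

/-- The log canonical threshold `c` of a closed positive current with the Lelong numbers `nu E` is computed
by a quasi-monomial valuation `v` (Jonsson and Mustaţă 2012, 2014, Xu 2020), which lies in the interior of
a cone of monomial valuations on a log smooth model; they are given by their weights. -/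
structure Quasi (D : Type) (a : D → ℕ) (nu : D → ℝ) (c : ℝ) where
  r : ℕ
  v : Fin r → ℝ
  v_pos : ∀ i, 0 < v i
  /-- the log discrepancy of the valuation with weights `w`, minus `c` times the Lelong number of the current
  (the generic one, for this valuation) -/
  g : (Fin r → ℝ) → ℝ
  /-- The log discrepancy is linear, and the Lelong number is the limit of minima of linear functions of
  the weights; it is continuous in the interior of the cone. -/
  g_add : ∀ w w', (∀ i, 0 < w i) → (∀ i, 0 < w' i) → g (w + w') ≤ g w + g w'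
  g_smul : ∀ (t : ℝ) w, 0 < t → (∀ i, 0 < w i) → g (t • w) = t * g w
  g_cont : ContinuousAt g v
  /-- `v` computes `c` -/
  g_v : g v = 0
  /-- a valuation with integral weights is a multiple of the order of vanishing along a prime divisor -/
  div : ∀ w : Fin r → ℕ, (∀ i, 0 < w i) →
    ∃ (E : D) (k : ℕ), 0 < k ∧ g (fun i => w i) = k * (a E + 1 - c * nu E)

/-- A log resolution `W` of `Y_0`, of the divisors `F_j` and of an approximation of the b-divisor `x` by
ideals. `G_l` are the `F_j` which are divisors of `W`, and the prime divisors of `W` which are exceptional over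
`Y_0`. `Ex E` says that `E` is exceptional over `Y_0`, `S E` that its centre on `Y_0` has codimension two. -/
structure Count (a : D → ℕ) (x : D → ℝ) (Ex S : D → Prop) (lam t : ℝ) (w : D → ℝ) (e : ℝ) where
  N : ℕ
  G : Fin N → D
  /-- the multiplicity of `G_l` along `E` -/
  m : D → Fin N → ℕ
  /-- the log discrepancy of `E` for the pair `(W, ∑ G_l)`, which is log canonical -/
  A : D → ℕ
  /-- the discrepancy of `E` over `X` is `∑ a_l m_l` plus the discrepancy over `W` -/
  disc : ∀ E, Ex E → (a E + 1 : ℝ) = ∑ l, (a (G l) + 1 : ℝ) * m E l + A E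
  /-- Demailly, Ein and Lazarsfeld 2000: the approximation `x'`, a divisor on `W`, satisfies
  `x' ≤ x ≤ x' + e (a + 1)` -/
  approx : ∀ E, Ex E → x E ≤ ∑ l, x (G l) * m E l + e * (a E + 1)
  /-- the divisors of log discrepancy zero are the monomial valuations of the strata -/
  fin : ∀ v : Fin N → ℕ, {E | Ex E ∧ A E = 0 ∧ m E = v}.Finite
  /-- the log discrepancy of a divisor which is exceptional over `W` is at least two -/
  two : ∀ E, Ex E → (∀ l, m E l = 0) → 2 ≤ A E
  /-- If the centre of `E` is contained in `F_i` and `F_j` then `F_i` and `F_j` meet on `Y_0` in codimension two;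
  `E'` is the blow up of a component. -/
  meet : ∀ E l l', Ex E → l ≠ l' → 0 < m E l → 0 < m E l' → ¬ Ex (G l) → ¬ Ex (G l') →
    ∃ E', Ex E' ∧ a E' - lam * x E' ≤ 1 - (lam * x (G l) - a (G l)) - (lam * x (G l') - a (G l'))
  /-- If the centre of `E` is contained in `F_j` and in no other `G_l` and the log discrepancy for
  `(W, ∑ G_l)` is one then the centre has codimension two in `W`, and `W → Y_0` is an isomorphism at its
  generic point. `E` is the weighted blow up with the weights `m_l` for `F_j` and `1`. -/
  surf : ∀ E l, Ex E → ¬ Ex (G l) → 0 < m E l → (∀ l', l' ≠ l → m E l' = 0) → A E = 1 → S E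
  /-- the prime divisors of the `F_j` -/
  Q : Type
  Z : D → Q
  Z_inj : ∀ E E' l, Ex E → Ex E' → ¬ Ex (G l) → 0 < m E l → (∀ l', l' ≠ l → m E l' = 0) →
    (∀ l', l' ≠ l → m E' l' = 0) → m E l = m E' l → A E = 1 → A E' = 1 → Z E = Z E' → E = E'
  /-- The class of `L - t ∑ x_j F_j`, plus a small ample class, contains an effective divisor which does not
  contain the `F_j` and the multiplicities of which are, up to a small number, at least
  `t (x_E - ∑ x_j ord_E(F_j))`, because `L - t x` is nef. Its restriction to `F_j` has at least this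
  multiplicity along `Z_E`; `q` are these multiplicities, and `M` is a bound for its degree. -/
  M : ℝ
  gen : ∀ l, ¬ Ex (G l) → ∀ (T : Finset D) (e' : ℝ), 0 < e' → ∃ q : Q → ℝ, (∀ s, 0 ≤ q s) ∧
    (∀ R : Finset Q, ∑ s ∈ R, q s ≤ M) ∧
    ∀ E ∈ T, Ex E → 0 < m E l → (∀ l', l' ≠ l → m E l' = 0) → A E = 1 → t * (x E - w E) ≤ q (Z E) + e'

/-- An infinite sequence of steps. -/
structure Prog (a : D → ℕ) (x : D → ℝ) (lam : ℝ) where
  J : Type
  [finJ : Fintype J]
  F : J → D
  x_pos : ∀ j, 0 < x (F j)
  a_lt : ∀ j, a (F j) < lam * x (F j)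
  /-- `E` is exceptional over `Y_0` -/
  Ex : D → Prop
  pos : ∀ E, Ex E → lam * x E < a E
  /-- the centre of `E` on `Y_i` has codimension two -/
  Surf : ℕ → D → Prop
  /-- the centre of `E` on `Y_i` lies in the locus of step `i`; equivalently, its centre on `Y_(i+1)` lies
  in the locus created by the step -/
  Inv : ℕ → D → Prop
  /-- the multiplicity along `E` of the pull back of `F_j` on `Y_i` -/
  ord : ℕ → D → J → ℝ
  nonneg : ∀ i E j, Ex E → 0 ≤ ord i E j
  /-- a terminal variety is smooth in codimension two -/
  int : ∀ i E, Ex E → Surf i E → ∀ j, ∃ z : ℕ, ord i E j = z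
  /-- negativity lemma: the pull back of `L - t x` from `Y_i` is at least `L - t x`, since this is nef -/
  le : ∀ i E, Ex E → ∑ j, x (F j) * ord i E j ≤ x E
  /-- negativity lemma -/
  mono : ∀ i E, Ex E → ∑ j, x (F j) * ord i E j ≤ ∑ j, x (F j) * ord (i + 1) E j
  mono_lt : ∀ i E, Ex E → Inv i E →
    ∑ j, x (F j) * ord i E j < ∑ j, x (F j) * ord (i + 1) E j
  /-- If the locus created by step `i` contains a subvariety `S` of codimension two then `S` is contained in
  some `F_j`, since `L` has degree zero and `L - t ∑ x_j F_j` positive degree on the created curves. `E'` is the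
  blow up of `S`, its discrepancy for the generalized pair is at most one minus the multiplicity of the
  boundary. -/
  created : ∀ i E, Ex E → Inv i E → Surf (i + 1) E → ∃ E', Ex E' ∧ Inv i E' ∧ Surf (i + 1) E' ∧
    (∃ j, 0 < ord (i + 1) E' j) ∧
    a E' - lam * x E' ≤ 1 - ∑ j, (lam * x (F j) - a (F j)) * ord (i + 1) E' j
  /-- the dimension of the span of the classes of surfaces in `H_4(Y_i, ℚ)` -/
  rk : ℕ → ℕ
  /-- Kawamata, Matsuda, Matsuki 1987, 5-1-15 to 5-1-17 -/
  kmm : ∀ i, (∀ E, Ex E → Inv i E → ¬ Surf (i + 1) E) → rk (i + 1) < rk i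
  t : ℝ
  t_pos : 0 < t
  res : ∀ e : ℝ, 0 < e → Nonempty (Count a x Ex (Surf 0) lam t (fun E => ∑ j, x (F j) * ord 0 E j) e)

attribute [instance] Prog.finJ

end Pool.Agent.H33.FT
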