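import Mathlib

/-!
# A minimal point of a rational polyhedron is rational
-/

namespace Pool.Agent.H33.FT

open Finset

/-- `ℚ` is a direct summand of `ℝ`. -/
theorem exists_retraction : ∃ φ : ℝ →ₗ[ℚ] ℚ, φ 1 = 1 := by
  obtain ⟨φ, hφ⟩ := LinearMap.exists_leftInverse_of_injective (Algebra.linearMap ℚ ℝ)
    (LinearMap.ker_eq_bot.2 (algebraMap ℚ ℝ).injective)
  refine ⟨φ, ?_⟩
  have := LinearMap.congr_fun hφ 1
  simpa using this

variable {J : Type*} [Fintype J]

/-- the unique real solution of a rational linear system is rational -/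
theorem rational_of_unique (V : Set (J → ℤ)) (j0 : J) (x : J → ℝ) (h0 : x j0 = 1)
    (hx : ∀ v ∈ V, ∑ j, x j * v j = 0)
    (huniq : ∀ h : J → ℝ, h j0 = 0 → (∀ v ∈ V, ∑ j, h j * v j = 0) → h = 0) :
    ∃ q : J → ℚ, ∀ j, x j = q j := by
  obtain ⟨φ, hφ⟩ := exists_retraction
  refine ⟨fun j => φ (x j), fun j => ?_⟩
  have h1 : (fun j => x j - (φ (x j) : ℝ)) = 0 := by
    refine huniq _ ?_ fun v hv => ?_
    · simp [h0, hφ]
    · have h2 : φ (∑ j, x j * v j) = ∑ j, φ (x j) * v j := by
        rw [map_sum]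
        refine Finset.sum_congr rfl fun j _ => ?_
        have : x j * (v j : ℝ) = (v j : ℚ) • x j := by
          rw [Rat.smul_def]; push_cast; ring
        rw [this, map_smul, smul_eq_mul]; ring
      rw [hx v hv, map_zero] at h2
      have h3 : ∑ j, ((φ (x j) : ℚ) : ℝ) * v j = 0 := by
        have := congrArg (fun q : ℚ => (q : ℝ)) h2
        push_cast at this
        exact this.symm
      simp only [sub_mul, Finset.sum_sub_distrib, hx v hv, h3, sub_zero]
  have := congrFun h1 j
  simp only [Pi.zero_apply] at this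
  linarith

/-- Let `x` be a point of the polyhedron `y_0 = 1`, `y.v ≤ 0` (`v ∈ V`, `V` a finite set of integral
vectors), such that `x ≤ y` for all points `y` of the polyhedron near `x`. Then `x` is rational. -/
theorem rational_of_minimal (V : Set (J → ℤ)) (hV : V.Finite) (j0 : J) (x : J → ℝ) (h0 : x j0 = 1)
    (hx : ∀ v ∈ V, ∑ j, x j * v j ≤ 0) (ε : ℝ) (hε : 0 < ε)
    (hmin : ∀ y : J → ℝ, y j0 = 1 → (∀ v ∈ V, ∑ j, y j * v j ≤ 0) → (∀ j, |y j - x j| < ε) →
      ∀ j, x j ≤ y j) :
    ∃ q : J → ℚ, ∀ j, x j = q j := by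
  classical
  refine rational_of_unique {v ∈ V | ∑ j, x j * v j = 0} j0 x h0 (fun v hv => hv.2) fun h hh0 hh => ?_
  -- points near `x` in direction `h`
  have h1 : ∀ᶠ s in nhds (0 : ℝ), (∀ v ∈ V, ∑ j, (x j + s * h j) * v j ≤ 0) ∧
      ∀ j, |x j + s * h j - x j| < ε := by
    refine Filter.Eventually.and ?_ ?_
    · rw [Filter.eventually_all_finite hV]
      intro v hv
      by_cases h2 : ∑ j, x j * v j = 0
      · refine Filter.Eventually.of_forall fun s => ?_
        have h3 := hh v ⟨hv, h2⟩
        have h4 : ∑ j, (x j + s * h j) * (v j : ℝ) = ∑ j, x j * v j + s * ∑ j, h j * v j := by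
          rw [Finset.mul_sum, ← Finset.sum_add_distrib]
          exact Finset.sum_congr rfl fun j _ => by ring
        rw [h4, h2, h3]; simp
      · have h3 : ∑ j, x j * v j < 0 := lt_of_le_of_ne (hx v hv) h2
        have h4 : Continuous fun s : ℝ => ∑ j, (x j + s * h j) * (v j : ℝ) := by fun_prop
        have h5 := h4.tendsto 0
        have h6 : ∑ j, (x j + 0 * h j) * (v j : ℝ) < 0 := by simpa using h3
        exact (h5.eventually_lt_const h6).mono fun s hs => hs.le
    · rw [Filter.eventually_all]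
      intro j
      have h4 : Continuous fun s : ℝ => |x j + s * h j - x j| := by fun_prop
      have h6 : |x j + 0 * h j - x j| < ε := by simpa using hε
      exact (h4.tendsto 0).eventually_lt_const h6
  obtain ⟨δ, hδ, hball⟩ := Metric.eventually_nhds_iff.1 h1
  have key : ∀ s : ℝ, |s| < δ → ∀ j, x j ≤ x j + s * h j := fun s hs => by
    have h2 := hball (y := s) (by simpa [Real.dist_eq] using hs)
    exact hmin _ (by simp [h0, hh0]) h2.1 h2.2
  funext j
  have h2 := key (δ / 2) (by rw [abs_of_pos (by linarith)]; linarith) j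
  have h3 := key (-(δ / 2)) (by rw [abs_neg, abs_of_pos (by linarith)]; linarith) j
  simp only [Pi.zero_apply]
  nlinarith

end Pool.Agent.H33.FT
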