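import Mathlib

/-!
# The defect of linearity vanishes

`B` is the b-divisor of an extremal current, `x(s)` the b-divisor of the numerically positive part of
`L - s t* E_0`, `e(s) = s B - x(s)`, `g(s) = q(B, e(s))`. The function `g` is concave and nonnegative, and
`s g(s) ≤ (1 - s)^2` by the lemma on the differences of nef classes. So `g = 0`.
-/

namespace Pool.Agent.H33.FT

/-- a nonnegative concave function `g` on `[0, 1]` with `s g(s) ≤ (1 - s)^2` vanishes on `(0, 1]` -/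
theorem eq_zero_of_concave (g : ℝ → ℝ) (hc : ConcaveOn ℝ (Set.Ioc 0 1) g)
    (h0 : ∀ s ∈ Set.Ioc (0 : ℝ) 1, 0 ≤ g s) (h1 : ∀ s ∈ Set.Ioc (0 : ℝ) 1, s * g s ≤ (1 - s) ^ 2) :
    ∀ s ∈ Set.Ioc (0 : ℝ) 1, g s = 0 := by
  intro s hs
  have hg1 : g 1 = 0 := by
    have h2 := h1 1 ⟨one_pos, le_rfl⟩
    have h3 := h0 1 ⟨one_pos, le_rfl⟩
    nlinarith
  rcases eq_or_lt_of_le hs.2 with h | hs1
  · rw [h, hg1]
  refine le_antisymm ?_ (h0 s hs)
  refine le_of_forall_pos_le_add fun ε hε => ?_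
  -- a point `r` between `s` and `1`, near `1`
  obtain ⟨r, hr1, hr2, hr3⟩ : ∃ r : ℝ, s < r ∧ r < 1 ∧ (1 - s) * (1 - r) ≤ ε * s := by
    have hpos : 0 < min ((1 - s) / 2) (ε * s / (1 - s)) := by
      apply lt_min
      · linarith
      · exact div_pos (mul_pos hε hs.1) (by linarith)
    refine ⟨1 - min ((1 - s) / 2) (ε * s / (1 - s)), ?_, ?_, ?_⟩
    · have := min_le_left ((1 - s) / 2) (ε * s / (1 - s))
      linarith
    · linarith
    · have h2 := min_le_right ((1 - s) / 2) (ε * s / (1 - s))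
      have h3 : (1 - s) * (ε * s / (1 - s)) = ε * s := by
        field_simp
      have h4 : (1 - s) * (1 - (1 - min ((1 - s) / 2) (ε * s / (1 - s)))) ≤
          (1 - s) * (ε * s / (1 - s)) := by
        apply mul_le_mul_of_nonneg_left _ (by linarith)
        linarith
      linarith
  have hr0 : 0 < r := hs.1.trans hr1
  -- concavity at `r`
  have hs1' : (0 : ℝ) < 1 - s := by linarith
  have ha : 0 ≤ (1 - r) / (1 - s) := div_nonneg (by linarith) (by linarith)
  have hb : 0 ≤ (r - s) / (1 - s) := div_nonneg (by linarith) (by linarith)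
  have hab : (1 - r) / (1 - s) + (r - s) / (1 - s) = 1 := by
    rw [← add_div, div_eq_one_iff_eq hs1'.ne']; ring
  have h2 := hc.2 hs (⟨one_pos, le_rfl⟩ : (1 : ℝ) ∈ Set.Ioc (0 : ℝ) 1) ha hb hab
  have h3 : ((1 - r) / (1 - s)) • s + ((r - s) / (1 - s)) • (1 : ℝ) = r := by
    simp only [smul_eq_mul]
    field_simp
    ring
  rw [h3, hg1] at h2
  rw [smul_eq_mul, smul_eq_mul, mul_zero, add_zero] at h2
  have h4 := h1 r ⟨hr0, hr2.le⟩
  have h5 : (1 - r) / (1 - s) * g s * r ≤ (1 - r) ^ 2 := by nlinarith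
  have h6 : (1 - r) * (g s * r) ≤ (1 - r) * ((1 - r) * (1 - s)) := by
    have : (1 - r) / (1 - s) * g s * r * (1 - s) ≤ (1 - r) ^ 2 * (1 - s) :=
      mul_le_mul_of_nonneg_right h5 hs1'.le
    have h7 : (1 - r) / (1 - s) * g s * r * (1 - s) = (1 - r) * (g s * r) := by
      field_simp
    rw [h7] at this
    linarith
  have h8 : g s * r ≤ (1 - r) * (1 - s) := le_of_mul_le_mul_left h6 (by linarith)
  have h9 : g s * s ≤ g s * r := mul_le_mul_of_nonneg_left hr1.le (h0 s hs)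
  have h10 : g s * s ≤ ε * s := by linarith
  have h11 : g s ≤ ε := le_of_mul_le_mul_right h10 hs.1
  linarith

/-- **Linearity.** `x` is convex in `s`, `e(s) = s B - x(s)` is effective. -/
theorem linear {W : Type*} [AddCommGroup W] [Module ℝ W] (q : W →ₗ[ℝ] W →ₗ[ℝ] ℝ)
    (qsymm : ∀ x y, q x y = q y x)
    (B : W) (x : ℝ → W) (pos : Set W)
    -- `x` is convex, and `q(B, .)` is nonnegative on effective divisors
    (hconv : ∀ s ∈ Set.Ioc (0 : ℝ) 1, ∀ r ∈ Set.Ioc (0 : ℝ) 1, ∀ a b : ℝ, 0 ≤ a → 0 ≤ b → a + b = 1 →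
      a • x s + b • x r - x (a * s + b * r) ∈ pos)
    (hB : ∀ y ∈ pos, 0 ≤ q B y)
    (hqB : q B B = 1)
    (heff : ∀ s ∈ Set.Ioc (0 : ℝ) 1, s • B - x s ∈ pos)
    (hx : ∀ s ∈ Set.Ioc (0 : ℝ) 1, 0 ≤ q (x s) (s • B - x s))
    (hM : ∀ s ∈ Set.Ioc (0 : ℝ) 1, 2 * s - 1 ≤ q (x s) (x s))
    (hdef : ∀ s ∈ Set.Ioc (0 : ℝ) 1, q (s • B - x s) (s • B - x s) ≤ 0 → s • B - x s = 0) :
    ∀ s ∈ Set.Ioc (0 : ℝ) 1, x s = s • B := by
  have hg := eq_zero_of_concave (fun s => q B (s • B - x s)) ⟨convex_Ioc _ _, ?_⟩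
    (fun s hs => hB _ (heff s hs)) ?_
  · intro s hs
    have h1 := hg s hs
    have h2 := hx s hs
    have h3 : q (s • B - x s) (s • B - x s) ≤ 0 := by
      have h4 : q (x s) (s • B - x s) = s * q B (s • B - x s) - q (s • B - x s) (s • B - x s) := by
        conv_rhs => rw [show q (s • B - x s) = s • q B - q (x s) by rw [map_sub, map_smul]]
        simp only [LinearMap.sub_apply, LinearMap.smul_apply, smul_eq_mul]
        ring
      rw [h1] at h4
      linarith
    have h5 := hdef s hs h3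
    rw [sub_eq_zero] at h5
    exact h5.symm
  · intro s hs r hr a b ha hb hab
    have h1 := hB _ (hconv s hs r hr a b ha hb hab)
    simp only [smul_eq_mul] at h1 ⊢
    simp only [map_sub, map_add, map_smul, smul_eq_mul] at h1 ⊢
    nlinarith
  · intro s hs
    have h1 := hx s hs
    have h2 := hM s hs
    simp only [map_sub, map_smul, smul_eq_mul, hqB, LinearMap.sub_apply, LinearMap.smul_apply] at h1 h2 ⊢
    have h3 := qsymm B (x s)
    have hs0 := hs.1
    nlinarith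

end Pool.Agent.H33.FT
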