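import Pool.Agent.H33.FT.Data
import Pool.Agent.H87.FB.Data

/-!
# The program: from the published facts to the data of `Steps`
-/

namespace Pool.Agent.H33.FT

open Finset

variable {D : Type}

namespace Count

variable {a : D → ℕ} {x : D → ℝ} {Ex S : D → Prop} {lam t : ℝ} {w : D → ℝ} {e : ℝ}
  (R : Count a x Ex S lam t w e)

/-- the inequality for the discrepancies -/
theorem ineq (hlam : 0 ≤ lam) (E : D) (hE : Ex E) :
    R.A E + ∑ l, (a (R.G l) + 1 - lam * x (R.G l)) * R.m E l ≤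
      1 + (a E - lam * x E) + lam * e * (a E + 1) := by
  have h1 := R.disc E hE
  have h2 := mul_le_mul_of_nonneg_left (R.approx E hE) hlam
  have h3 : ∑ l, (a (R.G l) + 1 - lam * x (R.G l)) * R.m E l =
      ∑ l, (a (R.G l) + 1 : ℝ) * R.m E l - lam * ∑ l, x (R.G l) * R.m E l := by
    rw [mul_sum, ← sum_sub_distrib]
    exact sum_congr rfl fun l _ => by ring
  rw [h3]
  linarith

/-- the divisors with `a_E - lam x_E ≤ 1 - δ` -/
def Low (_ : Count a x Ex S lam t w e) (δ : ℝ) : Set D := {E | Ex E ∧ a E - lam * x E ≤ 1 - δ}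

/-- the weighted blow ups of codimension two centres in one `F_j` -/
def Typ (E : D) (l : Fin R.N) : Prop :=
  ¬ Ex (R.G l) ∧ 0 < R.m E l ∧ (∀ l', l' ≠ l → R.m E l' = 0) ∧ R.A E = 1

section

variable {lam' δ : ℝ} (hlam : 0 < lam) (hlam' : lam < lam') (hlct : ∀ E, lam' * x E ≤ a E + 1)
  (hx : ∀ E, 0 ≤ x E)
  (hpos : ∀ E, Ex E → lam * x E < a E) (hδ : 0 < δ)
  (he : lam * e * (2 / (1 - lam / lam')) ≤ δ / 2)

include hlam hlam' hlct in
theorem bound_a {E : D} (hE : a E - lam * x E ≤ 1 - δ) (hδ : 0 < δ) :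
    (a E + 1 : ℝ) ≤ 2 / (1 - lam / lam') := by
  have hl : 0 < lam' := hlam.trans hlam'
  have h1 : 0 < 1 - lam / lam' := by
    rw [sub_pos, div_lt_one hl]; exact hlam'
  rw [le_div_iff₀ h1]
  have h2 : lam * x E ≤ lam / lam' * (a E + 1) := by
    rw [div_mul_eq_mul_div, le_div_iff₀ hl]
    have := mul_le_mul_of_nonneg_left (hlct E) hlam.le
    linarith
  nlinarith

include hlam hlam' hlct hδ he in
theorem low_ineq (he0 : 0 ≤ e) {E : D} (hE : E ∈ R.Low δ) :
    R.A E + ∑ l, (a (R.G l) + 1 - lam * x (R.G l)) * R.m E l ≤ 2 - δ / 2 := by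
  have h1 := R.ineq hlam.le E hE.1
  have h2 := bound_a hlam hlam' hlct hE.2 hδ
  have h3 : lam * e * (a E + 1) ≤ lam * e * (2 / (1 - lam / lam')) :=
    mul_le_mul_of_nonneg_left h2 (mul_nonneg hlam.le he0)
  have h4 := hE.2
  linarith

include hlam hlam' hlct in
theorem coef_pos (hx : ∀ E, 0 ≤ x E) (l : Fin R.N) : 0 < (a (R.G l) + 1 - lam * x (R.G l) : ℝ) := by
  have h1 := hlct (R.G l)
  have h2 := hx (R.G l)
  rcases eq_or_lt_of_le h2 with h | h
  · rw [← h, mul_zero, sub_zero]; positivity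
  · have : lam * x (R.G l) < lam' * x (R.G l) := mul_lt_mul_of_pos_right hlam' h
    linarith

include hlam hlam' hlct hx in
theorem term_le {E : D} (l : Fin R.N) :
    (a (R.G l) + 1 - lam * x (R.G l)) * R.m E l ≤
      ∑ l, (a (R.G l) + 1 - lam * x (R.G l)) * R.m E l :=
  single_le_sum (f := fun l => (a (R.G l) + 1 - lam * x (R.G l)) * (R.m E l : ℝ))
    (fun l _ => mul_nonneg (R.coef_pos hlam hlam' hlct hx l).le (Nat.cast_nonneg _)) (mem_univ l)

include hlam hlam' hlct hx hpos hδ he in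
/-- The count: an element of `Low` is a monomial valuation or of the type of `Typ`. -/
theorem cases (he0 : 0 ≤ e) {E : D} (hE : E ∈ R.Low δ) : R.A E = 0 ∨ ∃ l, R.Typ E l := by
  classical
  have h1 := R.low_ineq hlam hlam' hlct hδ he he0 hE
  have hnn : ∀ l, 0 ≤ (a (R.G l) + 1 - lam * x (R.G l)) * (R.m E l : ℝ) := fun l =>
    mul_nonneg (R.coef_pos hlam hlam' hlct hx l).le (Nat.cast_nonneg _)
  rcases Nat.eq_zero_or_pos (R.A E) with h0 | h0
  · exact Or.inl h0
  right
  have hA1 : (1 : ℝ) ≤ R.A E := by exact_mod_cast h0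
  have hs := sum_nonneg fun l (_ : l ∈ (univ : Finset (Fin R.N))) => hnn l
  have hA : R.A E = 1 := by
    have h2 : (R.A E : ℝ) < 2 := by linarith
    have h3 : R.A E < 2 := by exact_mod_cast h2
    omega
  have hsum : ∑ l, (a (R.G l) + 1 - lam * x (R.G l)) * (R.m E l : ℝ) < 1 := by linarith
  -- no exceptional `G_l`
  have hEx : ∀ l, 0 < R.m E l → ¬ Ex (R.G l) := by
    intro l hl hex
    have h2 := R.term_le hlam hlam' hlct hx (E := E) l
    have h3 := hpos _ hex
    have h4 : (1 : ℝ) ≤ R.m E l := by exact_mod_cast hl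
    nlinarith
  -- some `m_l` is positive
  have hex : ∃ l, 0 < R.m E l := by
    by_contra hne
    push Not at hne
    have := R.two E hE.1 fun l => Nat.le_zero.1 (hne l)
    omega
  obtain ⟨l, hl⟩ := hex
  refine ⟨l, hEx l hl, hl, fun l' hne => ?_, hA⟩
  by_contra h
  have hl' : 0 < R.m E l' := Nat.pos_of_ne_zero h
  obtain ⟨E', hE', h5⟩ := R.meet E l l' hE.1 (Ne.symm hne) hl hl' (hEx l hl) (hEx l' hl')
  have h6 := hpos E' hE'
  have h7 : (a (R.G l) + 1 - lam * x (R.G l)) * (R.m E l : ℝ) +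
      (a (R.G l') + 1 - lam * x (R.G l')) * (R.m E l' : ℝ) ≤
      ∑ l, (a (R.G l) + 1 - lam * x (R.G l)) * (R.m E l : ℝ) := by
    have h8 := sum_le_sum_of_subset_of_nonneg (s := {l, l'}) (t := univ)
      (f := fun l => (a (R.G l) + 1 - lam * x (R.G l)) * (R.m E l : ℝ)) (subset_univ _)
      fun l _ _ => hnn l
    rwa [sum_pair (Ne.symm hne)] at h8
  have h9 : (1 : ℝ) ≤ R.m E l := by exact_mod_cast hl
  have h10 : (1 : ℝ) ≤ R.m E l' := by exact_mod_cast hl'
  have h11 := R.coef_pos hlam hlam' hlct hx l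
  have h12 := R.coef_pos hlam hlam' hlct hx l'
  have h13 : (a (R.G l) + 1 - lam * x (R.G l) : ℝ) ≤
      (a (R.G l) + 1 - lam * x (R.G l)) * (R.m E l : ℝ) := le_mul_of_one_le_right h11.le h9
  have h14 : (a (R.G l') + 1 - lam * x (R.G l') : ℝ) ≤
      (a (R.G l') + 1 - lam * x (R.G l')) * (R.m E l' : ℝ) := le_mul_of_one_le_right h12.le h10
  linarith

include hlam hlam' hlct hx hδ he in
/-- the multiplicities are bounded -/
theorem exists_bound (he0 : 0 ≤ e) : ∃ K : ℕ, ∀ E ∈ R.Low δ, ∀ l, R.m E l ≤ K := by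
  classical
  obtain ⟨c, hc, hcl⟩ : ∃ c : ℝ, 0 < c ∧ ∀ l, c ≤ a (R.G l) + 1 - lam * x (R.G l) := by
    rcases isEmpty_or_nonempty (Fin R.N) with hJ | hJ
    · exact ⟨1, one_pos, fun j => (hJ.false j).elim⟩
    · obtain ⟨i, hi⟩ := Finite.exists_min fun l => (a (R.G l) + 1 - lam * x (R.G l) : ℝ)
      exact ⟨_, R.coef_pos hlam hlam' hlct hx i, hi⟩
  obtain ⟨K, hK⟩ := exists_nat_gt (2 / c)
  refine ⟨K, fun E hE l => ?_⟩
  have h1 := R.low_ineq hlam hlam' hlct hδ he he0 hE
  have h2 := R.term_le hlam hlam' hlct hx (E := E) l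
  have h3 : (0 : ℝ) ≤ R.A E := Nat.cast_nonneg _
  have h4 : c * R.m E l ≤ 2 := by
    have := mul_le_mul_of_nonneg_right (hcl l) (Nat.cast_nonneg (R.m E l) : (0 : ℝ) ≤ R.m E l)
    linarith
  have h5 : (R.m E l : ℝ) ≤ 2 / c := by
    rw [le_div_iff₀ hc]; linarith
  have h6 : (R.m E l : ℝ) < K := lt_of_le_of_lt h5 hK
  exact_mod_cast h6.le

include hlam hlam' hlct hx hδ he in
theorem finite_mono (he0 : 0 ≤ e) : {E | E ∈ R.Low δ ∧ R.A E = 0}.Finite := by
  classical
  obtain ⟨K, hK⟩ := R.exists_bound hlam hlam' hlct hx hδ he he0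
  have h1 : (Set.pi Set.univ fun _ => Set.Iic K : Set (Fin R.N → ℕ)).Finite :=
    Set.Finite.pi fun _ => Set.finite_Iic _
  refine (h1.biUnion fun v _ => R.fin v).subset ?_
  rintro E ⟨hE, hA⟩
  exact Set.mem_biUnion (show R.m E ∈ _ from fun l _ => hK E hE l) ⟨hE.1, hA, rfl⟩

/-- the sum over the divisors of one type -/
theorem sum_type (ht : 0 < t) (T : Finset D) (l : Fin R.N) (k : ℕ)
    (hT : ∀ E ∈ T, Ex E ∧ R.Typ E l ∧ R.m E l = k) :
    ∑ E ∈ T, (x E - w E) ≤ (max R.M 0 + 1) / t := by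
  classical
  rcases T.eq_empty_or_nonempty with rfl | hne
  · rw [sum_empty]
    have := le_max_right R.M 0
    positivity
  · obtain ⟨E0, hE0⟩ := hne
    have hl : ¬ Ex (R.G l) := (hT E0 hE0).2.1.1
    have hcard : 0 < (T.card : ℝ) := by exact_mod_cast card_pos.2 ⟨E0, hE0⟩
    obtain ⟨q, hq, hM, hg⟩ := R.gen l hl T (1 / T.card) (by positivity)
    have h1 : ∑ E ∈ T, q (R.Z E) ≤ R.M := by
      have h2 : ∑ E ∈ T, q (R.Z E) = ∑ s ∈ T.image R.Z, q s := by
        rw [sum_image]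
        intro E hE E' hE' h
        obtain ⟨h3, h4, h5⟩ := hT E hE
        obtain ⟨h6, h7, h8⟩ := hT E' hE'
        exact R.Z_inj E E' l h3 h6 hl h4.2.1 h4.2.2.1 h7.2.2.1 (h5.trans h8.symm) h4.2.2.2 h7.2.2.2 h
      rw [h2]
      exact hM _
    have hmax := le_max_left R.M 0
    rw [le_div_iff₀ ht, sum_mul]
    calc ∑ E ∈ T, (x E - w E) * t ≤ ∑ E ∈ T, (q (R.Z E) + 1 / T.card) := by
          refine sum_le_sum fun E hE => ?_
          obtain ⟨h3, h4, -⟩ := hT E hE
          have := hg E hE h3 h4.2.1 h4.2.2.1 h4.2.2.2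
          linarith
      _ = ∑ E ∈ T, q (R.Z E) + 1 := by
          rw [sum_add_distrib, sum_const, nsmul_eq_mul]
          congr 1
          field_simp
      _ ≤ max R.M 0 + 1 := by linarith

include hlam hlam' hlct hx hpos hδ he in
/-- the sum over all elements of `Low` -/
theorem sum_low (he0 : 0 ≤ e) (ht : 0 < t) (hw : ∀ E, Ex E → 0 ≤ w E) (hwx : ∀ E, Ex E → w E ≤ x E) :
    ∃ C : ℝ, ∀ T : Finset D, (∀ E ∈ T, E ∈ R.Low δ) → ∑ E ∈ T, (x E - w E) ≤ C := by
  classical
  obtain ⟨K, hK⟩ := R.exists_bound hlam hlam' hlct hx hδ he he0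
  have hfin := R.finite_mono hlam hlam' hlct hx hδ he he0
  set T0 : Finset D := hfin.toFinset with hT0
  refine ⟨∑ E ∈ T0, x E + ∑ l : Fin R.N, ∑ k ∈ range (K + 1), (max R.M 0 + 1) / t, fun T hT => ?_⟩
  have hnn : ∀ E ∈ T, 0 ≤ x E - w E := fun E hE => sub_nonneg.2 (hwx E (hT E hE).1)
  have h1 : ∑ E ∈ T, (x E - w E) ≤ ∑ E ∈ T.filter (fun E => R.A E = 0), (x E - w E) +
      ∑ l : Fin R.N, ∑ k ∈ range (K + 1),
        ∑ E ∈ T.filter (fun E => R.Typ E l ∧ R.m E l = k), (x E - w E) := by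
    have h2 : ∀ E ∈ T, x E - w E ≤ (if R.A E = 0 then x E - w E else 0) +
        ∑ l : Fin R.N, ∑ k ∈ range (K + 1), if R.Typ E l ∧ R.m E l = k then x E - w E else 0 := by
      intro E hE
      have h3 : ∀ l : Fin R.N, ∀ k ∈ range (K + 1),
          0 ≤ if R.Typ E l ∧ R.m E l = k then x E - w E else 0 := fun l k _ => by
        split_ifs
        · exact hnn E hE
        · exact le_rfl
      rcases R.cases hlam hlam' hlct hx hpos hδ he he0 (hT E hE) with h | ⟨l, hl⟩
      · rw [if_pos h]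
        have := sum_nonneg fun l (_ : l ∈ (univ : Finset (Fin R.N))) => sum_nonneg (h3 l)
        linarith
      · have h4 : x E - w E ≤ ∑ l : Fin R.N, ∑ k ∈ range (K + 1),
            if R.Typ E l ∧ R.m E l = k then x E - w E else 0 := by
          have h5 := single_le_sum (f := fun l : Fin R.N => ∑ k ∈ range (K + 1),
            if R.Typ E l ∧ R.m E l = k then x E - w E else 0)
            (fun l _ => sum_nonneg (h3 l)) (mem_univ l)
          have h6 := single_le_sum (f := fun k : ℕ =>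
            if R.Typ E l ∧ R.m E l = k then x E - w E else 0) (h3 l)
            (mem_range.2 (Nat.lt_succ_of_le (hK E (hT E hE) l)))
          beta_reduce at h5 h6
          rw [if_pos ⟨hl, rfl⟩] at h6
          exact h6.trans h5
        have h7 : 0 ≤ (if R.A E = 0 then x E - w E else 0) := by
          split_ifs
          · exact hnn E hE
          · exact le_rfl
        linarith
    refine (sum_le_sum h2).trans ?_
    rw [sum_add_distrib, sum_comm]
    refine add_le_add (le_of_eq ?_) (le_of_eq ?_)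
    · rw [sum_filter]
    · refine sum_congr rfl fun l _ => ?_
      rw [sum_comm]
      refine sum_congr rfl fun k _ => ?_
      rw [sum_filter]
  refine h1.trans (add_le_add ?_ ?_)
  · calc ∑ E ∈ T.filter (fun E => R.A E = 0), (x E - w E) ≤
          ∑ E ∈ T.filter (fun E => R.A E = 0), x E := by
          refine sum_le_sum fun E hE => ?_
          have := hw E (hT E (mem_filter.1 hE).1).1
          linarith
      _ ≤ ∑ E ∈ T0, x E := by
          refine sum_le_sum_of_subset_of_nonneg ?_ fun E _ _ => hx E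
          intro E hE
          rw [mem_filter] at hE
          rw [hT0, Set.Finite.mem_toFinset]
          exact ⟨hT E hE.1, hE.2⟩
  · refine sum_le_sum fun l _ => sum_le_sum fun k _ => ?_
    refine R.sum_type ht _ l k fun E hE => ?_
    rw [mem_filter] at hE
    exact ⟨(hT E hE.1).1, hE.2.1, hE.2.2⟩

end

/-- **The count.** -/
theorem exists_count {a : D → ℕ} {x : D → ℝ} {Ex S : D → Prop} {lam lam' t δ : ℝ} {w : D → ℝ}
    (hlam : 0 < lam) (hlam' : lam < lam') (hlct : ∀ E, lam' * x E ≤ a E + 1) (hx : ∀ E, 0 ≤ x E)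
    (hpos : ∀ E, Ex E → lam * x E < a E) (hδ : 0 < δ) (ht : 0 < t)
    (hw : ∀ E, Ex E → 0 ≤ w E) (hwx : ∀ E, Ex E → w E ≤ x E)
    (res : ∀ e : ℝ, 0 < e → Nonempty (Count a x Ex S lam t w e)) :
    {E | (Ex E ∧ a E - lam * x E ≤ 1 - δ) ∧ ¬ S E}.Finite ∧
      ∃ C : ℝ, ∀ T : Finset D, (∀ E ∈ T, Ex E ∧ a E - lam * x E ≤ 1 - δ) →
        ∑ E ∈ T, (x E - w E) ≤ C := by
  have hl : 0 < lam' := hlam.trans hlam'
  have h1 : 0 < 1 - lam / lam' := by rw [sub_pos, div_lt_one hl]; exact hlam'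
  have hb : 0 < 2 / (1 - lam / lam') := by positivity
  have he0 : 0 < δ / 2 / (lam * (2 / (1 - lam / lam'))) := by positivity
  have he : lam * (δ / 2 / (lam * (2 / (1 - lam / lam')))) * (2 / (1 - lam / lam')) ≤ δ / 2 := by
    apply le_of_eq
    have h2 : lam * (2 / (1 - lam / lam')) ≠ 0 := (mul_pos hlam hb).ne'
    calc lam * (δ / 2 / (lam * (2 / (1 - lam / lam')))) * (2 / (1 - lam / lam')) =
        δ / 2 / (lam * (2 / (1 - lam / lam'))) * (lam * (2 / (1 - lam / lam'))) := by ring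
      _ = δ / 2 := div_mul_cancel₀ _ h2
  obtain ⟨R⟩ := res _ he0
  refine ⟨(R.finite_mono hlam hlam' hlct hx hδ he he0.le).subset ?_, ?_⟩
  · rintro E ⟨hE, hS⟩
    have hE' : E ∈ R.Low δ := hE
    refine ⟨hE', ?_⟩
    rcases R.cases hlam hlam' hlct hx hpos hδ he he0.le hE' with h | ⟨l, hl⟩
    · exact h
    · exact absurd (R.surf E l hE.1 hl.1 hl.2.1 hl.2.2.1 hl.2.2.2) hS
  · exact R.sum_low hlam hlam' hlct hx hpos hδ he he0.le ht hw hwx

end Count

namespace Prog

variable {a : D → ℕ} {x : D → ℝ} {lam : ℝ} (P : Prog a x lam)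

/-- the minimum of the coefficients `lam x_j - a_j`, and one -/
theorem exists_delta : ∃ δ : ℝ, 0 < δ ∧ δ ≤ 1 ∧ ∀ j, δ ≤ lam * x (P.F j) - a (P.F j) := by
  classical
  rcases isEmpty_or_nonempty P.J with hJ | hJ
  · exact ⟨1, one_pos, le_rfl, fun j => (hJ.false j).elim⟩
  · obtain ⟨i, hi⟩ := Finite.exists_min fun j => (lam * x (P.F j) - a (P.F j) : ℝ)
    have := P.a_lt i
    exact ⟨min (lam * x (P.F i) - a (P.F i)) 1, lt_min (by linarith) one_pos, min_le_right _ _,
      fun j => (min_le_left _ _).trans (hi j)⟩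

theorem w_nonneg (i : ℕ) (E : D) (hE : P.Ex E) : 0 ≤ ∑ j, x (P.F j) * P.ord i E j :=
  sum_nonneg fun j _ => mul_nonneg (P.x_pos j).le (P.nonneg i E j hE)

include P in
/-- **The data of `Steps`.** -/
theorem steps {lam' : ℝ} (hlam : 0 < lam) (hlam' : lam < lam') (hlct : ∀ E, lam' * x E ≤ a E + 1)
    (hx : ∀ E, 0 ≤ x E) : Nonempty H87.FB.Steps := by
  classical
  obtain ⟨δ, hδ, hδ1, hδj⟩ := P.exists_delta
  have hl : 0 < lam' := hlam.trans hlam'
  obtain ⟨hfin, C, hC⟩ := Count.exists_count hlam hlam' hlct hx P.pos hδ P.t_pos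
    (fun E hE => P.w_nonneg 0 E hE) (fun E hE => P.le 0 E hE) P.res
  refine ⟨{
    J := P.J
    x := fun j => x (P.F j)
    x_pos := P.x_pos
    A := {E : D // P.Ex E ∧ a E - lam * x E ≤ 1 - δ}
    coef := fun E => x E.1
    C := 2 / (1 - lam / lam') / lam'
    coef_le := ?_
    Surf := fun i E => P.Surf i E.1
    Inv := fun i E => P.Inv i E.1
    ord := fun i E j => P.ord i E.1 j
    int := fun i E h j => P.int i E.1 E.2.1 h j
    le := fun i E => P.le i E.1 E.2.1
    mono := fun i E => P.mono i E.1 E.2.1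
    mono_lt := fun i E h => P.mono_lt i E.1 E.2.1 h
    off := ?_
    M := C
    bound := ?_
    rk := P.rk
    kmm := ?_ }⟩
  · rintro ⟨E, hE⟩
    have h2 := Count.bound_a (x := x) (a := a) (D := D) hlam hlam' hlct hE.2 hδ
    rw [le_div_iff₀ hl]
    have := hlct E
    simp only
    linarith
  · refine Set.Finite.of_finite_image (f := Subtype.val) (hfin.subset ?_) Subtype.val_injective.injOn
    rintro _ ⟨⟨E, hE⟩, h3, rfl⟩
    exact ⟨hE, h3⟩
  · intro T _
    have h2 := hC (T.image Subtype.val) fun E hE => by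
      rw [mem_image] at hE
      obtain ⟨E', -, rfl⟩ := hE
      exact E'.2
    rw [sum_image fun E _ E' _ h => Subtype.ext h] at h2
    exact h2
  · intro i h
    refine P.kmm i fun E hE hI hS => ?_
    obtain ⟨E', hE', hI', hS', ⟨j, hj⟩, hd⟩ := P.created i E hE hI hS
    refine h ⟨E', hE', ?_⟩ hI' hS'
    -- the multiplicity of `F_j` is at least one
    obtain ⟨z, hz⟩ := P.int (i + 1) E' hE' hS' j
    have hz1 : (1 : ℝ) ≤ P.ord (i + 1) E' j := by
      rw [hz] at hj ⊢
      exact_mod_cast hj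
    have h2 : (lam * x (P.F j) - a (P.F j)) * P.ord (i + 1) E' j ≤
        ∑ j, (lam * x (P.F j) - a (P.F j)) * P.ord (i + 1) E' j :=
      single_le_sum (f := fun j => (lam * x (P.F j) - a (P.F j)) * P.ord (i + 1) E' j)
        (fun j _ => mul_nonneg (by have := P.a_lt j; linarith) (P.nonneg _ _ _ hE')) (mem_univ j)
    have h3 := hδj j
    nlinarith

end Prog

end Pool.Agent.H33.FT
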