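import Pool.Agent.H33.FT.Data

/-!
# A divisor of small log discrepancy

Let `c` be the log canonical threshold of a closed positive current, `nu E` its generic Lelong numbers and
`a E` the discrepancies of the prime divisors `E` over a smooth variety. There is a divisor `E` with
`a E + 1 - c nu E < 1`.
-/

namespace Pool.Agent.H33.FT

/-- simultaneous approximation -/
theorem exists_approx {r : ℕ} (v : Fin r → ℝ) (ε : ℝ) (hε : 0 < ε) :
    ∃ (N : ℕ) (w : Fin r → ℤ), 0 < N ∧ ∀ i, |w i - N * v i| < ε := by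
  have hK : IsCompact (Set.pi Set.univ fun _ : Fin r => Set.Icc (0 : ℝ) 1) :=
    isCompact_univ_pi fun _ => isCompact_Icc
  obtain ⟨a, -, f, hf, ht⟩ := hK.tendsto_subseq (x := fun n : ℕ => fun i => Int.fract (n * v i))
    fun n i _ => ⟨Int.fract_nonneg _, (Int.fract_lt_one _).le⟩
  rw [Metric.tendsto_atTop] at ht
  obtain ⟨n, hn⟩ := ht (ε / 2) (by linarith)
  have h1 := hn n le_rfl
  have h2 := hn (n + 1) (Nat.le_succ n)
  have hlt : f n < f (n + 1) := hf (Nat.lt_succ_self n)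
  refine ⟨f (n + 1) - f n, fun i => ⌊(f (n + 1) : ℝ) * v i⌋ - ⌊(f n : ℝ) * v i⌋, by omega, fun i => ?_⟩
  have h3 := dist_le_pi_dist (((fun n : ℕ => fun i => Int.fract (n * v i)) ∘ f) n) a i
  have h4 := dist_le_pi_dist (((fun n : ℕ => fun i => Int.fract (n * v i)) ∘ f) (n + 1)) a i
  simp only [Function.comp_apply, Real.dist_eq] at h3 h4
  have h5 : |Int.fract ((f n : ℝ) * v i) - a i| < ε / 2 := lt_of_le_of_lt h3 h1
  have h6 : |Int.fract ((f (n + 1) : ℝ) * v i) - a i| < ε / 2 := lt_of_le_of_lt h4 h2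
  have h7 : ((⌊(f (n + 1) : ℝ) * v i⌋ - ⌊(f n : ℝ) * v i⌋ : ℤ) : ℝ) -
      ((f (n + 1) - f n : ℕ) : ℝ) * v i =
      (Int.fract ((f n : ℝ) * v i) - a i) - (Int.fract ((f (n + 1) : ℝ) * v i) - a i) := by
    rw [Nat.cast_sub hlt.le]
    simp only [Int.fract]
    push_cast
    ring
  rw [h7]
  rw [abs_lt] at h5 h6 ⊢
  constructor <;> linarith

theorem Quasi.exists_lt {D : Type} {a : D → ℕ} {nu : D → ℝ} {c : ℝ} (Q : Quasi D a nu c)
    (hc : ∀ E, c * nu E ≤ a E + 1) : ∃ E, (a E : ℝ) < c * nu E := by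
  obtain ⟨δ, hδ, hball⟩ := Metric.continuousAt_iff.1 Q.g_cont 1 one_pos
  -- the smallest weight
  obtain ⟨m, hm, hmv⟩ : ∃ m : ℝ, 0 < m ∧ ∀ i, m ≤ Q.v i := by
    rcases isEmpty_or_nonempty (Fin Q.r) with hJ | hJ
    · exact ⟨1, one_pos, fun j => (hJ.false j).elim⟩
    · obtain ⟨i, hi⟩ := Finite.exists_min Q.v
      exact ⟨Q.v i, Q.v_pos i, hi⟩
  obtain ⟨N, w, hN, hw⟩ := exists_approx Q.v (min (δ / 2) (m / 2)) (lt_min (by linarith) (by linarith))
  have hN1 : (1 : ℝ) ≤ N := by exact_mod_cast hN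
  have hw1 : ∀ i, |w i - N * Q.v i| < δ / 2 := fun i => (lt_min_iff.1 (hw i)).1
  have hw2 : ∀ i, |w i - N * Q.v i| < m / 2 := fun i => (lt_min_iff.1 (hw i)).2
  -- the vector `u = v + (w - N v)`
  set u : Fin Q.r → ℝ := fun i => Q.v i + (w i - N * Q.v i) with hu
  have hupos : ∀ i, 0 < u i := fun i => by
    have h1 := (abs_lt.1 (hw2 i)).1
    have h2 := hmv i
    simp only [hu]
    linarith
  have hug : Q.g u < 1 := by
    have h1 : dist u Q.v < δ := by
      rw [dist_pi_lt_iff hδ]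
      intro i
      rw [Real.dist_eq]
      have h2 : u i - Q.v i = w i - N * Q.v i := by simp only [hu]; ring
      rw [h2]
      have := hw1 i
      linarith
    have h2 := hball h1
    rw [Real.dist_eq, Q.g_v, sub_zero] at h2
    exact (abs_lt.1 h2).2
  have hwpos : ∀ i, 0 < (w i : ℝ) := fun i => by
    have h1 := (abs_lt.1 (hw2 i)).1
    have h2 := hmv i
    have h3 : Q.v i ≤ N * Q.v i := by nlinarith [Q.v_pos i]
    linarith
  have hwnat : ∀ i, ((w i).toNat : ℝ) = w i := fun i => by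
    have : (0 : ℤ) ≤ w i := by
      have := hwpos i
      exact_mod_cast this.le
    have h2 : (((w i).toNat : ℤ) : ℝ) = (w i : ℝ) := by rw [Int.toNat_of_nonneg this]
    exact_mod_cast h2
  have hgw : Q.g (fun i => (((w i).toNat : ℕ) : ℝ)) < 1 := by
    have h0 : (fun i => (((w i).toNat : ℕ) : ℝ)) = fun i => (w i : ℝ) := funext hwnat
    rw [h0]
    rcases eq_or_lt_of_le hN1 with h | h
    · have h1 : (fun i => (w i : ℝ)) = u := by
        funext i
        simp only [hu]
        rw [← h]; ring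
      rw [h1]; exact hug
    · have h1 : (fun i => (w i : ℝ)) = ((N : ℝ) - 1) • Q.v + u := by
        funext i
        simp only [hu, Pi.add_apply, Pi.smul_apply, smul_eq_mul]
        ring
      have h2 : ∀ i, 0 < (((N : ℝ) - 1) • Q.v) i := fun i => by
        simp only [Pi.smul_apply, smul_eq_mul]
        exact mul_pos (by linarith) (Q.v_pos i)
      rw [h1]
      have h3 := Q.g_add _ _ h2 hupos
      rw [Q.g_smul _ _ (by linarith) Q.v_pos, Q.g_v, mul_zero, zero_add] at h3
      linarith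
  obtain ⟨E, k, hk, hE⟩ := Q.div (fun i => (w i).toNat) fun i => by
    have h1 := hwpos i
    rw [← hwnat i] at h1
    exact_mod_cast h1
  refine ⟨E, ?_⟩
  rw [hE] at hgw
  have hk1 : (1 : ℝ) ≤ k := by exact_mod_cast hk
  have h2 : 0 ≤ (a E : ℝ) + 1 - c * nu E := by have := hc E; linarith
  nlinarith

end Pool.Agent.H33.FT
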